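import Pool.Agent.MP_dc1150_gt.Mg.Neg_Geo

open Pool.Agent.MP_dc1150_gt

namespace Pool.Agent.Results.MP_dc1150_gt.Disproof

theorem result (C c : ℝ) (hC : 0 < C) (hc : 0 < c) :
    ∃ d : ℕ, 1 ≤ d ∧ ∃ G K : Set (Euc d), Admissible G K ∧ ∃ η : ℝ, 0 < η ∧ ∃ m N : ℕ,
      Mconv (polarSet K) (polarSet G) (c * η) ≤ m ∧
      (N : ℕ∞) ≤ Mdiag (polarSet K) (polarSet G) η ∧ C * (m : ℝ) ^ 2 < N := by
  obtain ⟨c', hc', W, hW⟩ := Neg.reduce c hc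
  obtain ⟨m1, hm1⟩ := exists_nat_gt (C * (W : ℝ) ^ 2)
  obtain ⟨M, hM, V, _, _, A, B, hV, hA, hB, hd, hs, hLA, hLB⟩ := Neg.core c' hc' (m1 + 1)
  have hM0 : 0 < M := by omega
  have : Nonempty V := Fintype.card_pos_iff.1 (by rw [hV]; positivity)
  obtain ⟨d, hd1, G, K, hGK, h1, h2⟩ := hW V A B M hA hB hd hs
    (Neg.approx_of_not_ladder A c' hc' M hLA) (Neg.approx_of_not_ladder B c' hc' M hLB)
  refine ⟨d, hd1, G, K, hGK, Real.log (4 / 3), Real.log_pos (by norm_num), W * M,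
    Fintype.card V, h1, h2, ?_⟩
  rw [hV]
  have hMr : (m1 : ℝ) < M := by exact_mod_cast (by omega : m1 < M)
  have hM1 : (0 : ℝ) < (M : ℝ) ^ 2 := by positivity
  push_cast
  nlinarith

end Pool.Agent.Results.MP_dc1150_gt.Disproof
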