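import Pool.Agent.MP_dc1150_gt.Mg.Fixed

open Pool.Agent.MP_dc1150_gt

namespace Pool.Agent.Results.MP_dc1150_gt.FixedDim

theorem result (d : ℕ) (hd : 1 ≤ d) (G K : Set (Euc d)) (hGK : Admissible G K) (η : ℝ)
    (hη : 0 < η) (N m : ℕ) (hN : (N : ℕ∞) ≤ Mdiag (polarSet K) (polarSet G) η)
    (hm : Mconv (polarSet K) (polarSet G) (η / (128000 * ((d : ℝ) + 1) ^ 4)) ≤ m) :
    (N : ℝ) ≤ (4 * ((d : ℝ) + 1)) ^ (20 * d) * (m : ℝ) ^ 2 := by
  rcases Nat.eq_zero_or_pos N with h0 | h0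
  · subst h0; simp only [Nat.cast_zero]; positivity
  obtain ⟨N', hNN, y, z, hy, hz, hsep⟩ := exists_of_le_Mdiag h0.ne' hN
  have hAB := polar_sub_interior hGK
  have hA := convex_polarSet K
  have hc := ctx2_of hGK
  have hts := not_tsep hA hAB hm
  have hD : DSep (polarSet (polarSet G)) η y z := by
    intro j w hw0 hwj hw1 θ φ h1 h2
    have k1 := hilbert_le (hAB (hA.sum_mem (fun i _ => hw0 i) hw1 fun i _ => hy i)) (hAB (hy j))
      h1.1 h1.2
    have k2 := hilbert_le (hAB (hA.sum_mem (fun i _ => hw0 i) hw1 fun i _ => hz i)) (hAB (hz j))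
      h2.1 h2.2
    linarith [hsep j w hw0 hwj hw1]
  have k1 : (N : ℝ) ≤ N' := by exact_mod_cast hNN
  have hm2 : (0 : ℝ) ≤ (m : ℝ) ^ 2 := by positivity
  have hD1 : (1 : ℝ) ≤ d + 1 := by linarith [Nat.cast_nonneg (α := ℝ) d]
  rcases le_total η 1 with h1 | h1
  · have h2 := fixed_small hd _ _ hc η hη h1 m (fun h => hts (h.mono hc.toCtx ?_)) N' y z hy hz hD
    · linarith
    · have h3 : ((d : ℝ) + 1) ^ 3 ≤ (d + 1) ^ 4 := pow_le_pow_right₀ hD1 (by norm_num)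
      have h4 : (0 : ℝ) < (d + 1) ^ 3 := by positivity
      exact div_le_div_of_nonneg_left hη.le (by positivity) (by linarith)
  · have h2 := fixed_large hc h1 (m := m) (by
      rwa [show η / 8 / (16000 * ((d : ℝ) + 1) ^ 4) = η / (128000 * (d + 1) ^ 4) by
        field_simp; norm_num]) hy hz hD
    have h3 : (N' : ℝ) ≤ (m : ℝ) ^ 2 := by exact_mod_cast h2
    have h4 := le_mul_of_one_le_left hm2
      (one_le_pow₀ (by linarith : (1 : ℝ) ≤ 4 * (d + 1)) (n := 20 * d))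
    linarith

end Pool.Agent.Results.MP_dc1150_gt.FixedDim
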