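import Pool.Agent.MP_dc1150_gt.Mg.Local
import Pool.Agent.MP_dc1150_gt.Mg.Bridge

open Pool.Agent.MP_dc1150_gt

namespace Pool.Agent.Results.MP_dc1150_gt.QuasiPoly

theorem result (ε : ℝ) (hε : 0 < ε) :
    ∃ C c : ℝ, 0 < C ∧ 0 < c ∧ ∀ (d : ℕ) (G K : Set (Euc d)), Admissible G K →
      ∀ η : ℝ, 0 < η → ∀ N m : ℕ, (N : ℕ∞) ≤ Mdiag (polarSet K) (polarSet G) η →
        Mconv (polarSet K) (polarSet G) (c * η) ≤ m →
        (N : ℝ) ≤ Real.exp (C * Real.log (2 * m) ^ (3 + ε)) := by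
  classical
  refine ⟨1600 * 2 ^ (3 + ε), min (1 / 32) (ε / 14) / 4, by positivity,
    div_pos (lt_min (by norm_num) (by positivity)) (by norm_num), ?_⟩
  intro d G K hGK η hη N m hN hm
  rcases Nat.eq_zero_or_pos N with h0 | h0
  · subst h0; simpa using (Real.exp_pos _).le
  obtain ⟨N', hNN, y, z, hy, hz, hsep⟩ := exists_of_le_Mdiag h0.ne' hN
  have hAB := polar_sub_interior hGK
  have hA := convex_polarSet K
  have hc := ctx_of hA hAB
  have hm1 : 1 ≤ m := one_le_of_mem (zero_mem_polarSet K) hm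
  have hm' : (1 : ℝ) ≤ m := by exact_mod_cast hm1
  have hts := not_tsep hA hAB hm
  rw [show min (1 / 32) (ε / 14) / 4 * η = min (1 / 32) (ε / 14) * (η / 4) by ring] at hts
  obtain ⟨I1, -, h1, hcl1⟩ := localise hε hc (by positivity : 0 < η / 4) hm1 hts y Finset.univ
    (fun i _ => hy i)
  obtain ⟨I2, hI2, h2, hcl2⟩ := localise hε hc (by positivity : 0 < η / 4) hm1 hts z I1
    (fun i _ => hz i)
  have key : ∀ i ∈ I2, ∀ j ∈ I2, ¬ i < j := by
    intro i hi j hj hij
    have h := hsep j (fun a => if a = i then 1 else 0) (fun a => by split_ifs <;> norm_num)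
      (fun a ha => by
        have : a ≠ i := by rintro rfl; exact absurd hij (not_lt.2 ha)
        simp [this]) (by simp)
    simp only [ite_smul, one_smul, zero_smul, Finset.sum_ite_eq', Finset.mem_univ, if_true] at h
    have k1 := hilbert_le (hAB (hy i)) (hAB (hy j)) (hcl1 i (hI2 hi) j (hI2 hj))
      (hcl1 j (hI2 hj) i (hI2 hi))
    have k2 := hilbert_le (hAB (hz i)) (hAB (hz j)) (hcl2 i hi j hj) (hcl2 j hj i hi)
    linarith
  have hcard : (I2.card : ℝ) ≤ 1 := by
    have : I2.card ≤ 1 := Finset.card_le_one.2 fun i hi j hj =>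
      le_antisymm (not_lt.1 (key j hj i hi)) (not_lt.1 (key i hi j hj))
    exact_mod_cast this
  have hl : 0 ≤ Real.log (2 * m) := Real.log_nonneg (by linarith)
  set E := Real.exp (800 * (2 * Real.log (2 * m)) ^ (3 + ε)) with hE
  have hE0 : 0 < E := Real.exp_pos _
  have h3 : (N : ℝ) ≤ E * E := by
    have k1 : (N : ℝ) ≤ N' := by exact_mod_cast hNN
    simp only [Finset.card_univ, Fintype.card_fin] at h1
    have k2 : (I1.card : ℝ) ≤ E := h2.trans (mul_le_of_le_one_right hE0.le hcard)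
    exact k1.trans (h1.trans (mul_le_mul_of_nonneg_left k2 hE0.le))
  refine h3.trans (le_of_eq ?_)
  rw [hE, ← Real.exp_add, Real.mul_rpow (by norm_num) hl]
  congr 1; ring

end Pool.Agent.Results.MP_dc1150_gt.QuasiPoly
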